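import Pool.Agent.Lib.MP_4960b8_pr.RN.Cauchy

/-! Stability of the boundary value problem, for solutions with the limit `a` in place of `1`. -/

namespace Pool.Agent.Lib.MP_4960b8_pr.EX

open Real QK RN

/-- the boundary value problem, multiplied by the real number `a` -/
structure ShA (a : ℝ) (Λ : ℝ → ℂ) (L b : ℝ) (G : ℂ → ℂ) : Prop where
  le1 : |a| ≤ 1
  hol : DifferentiableOn ℂ G Ust
  left : ∀ τ, (G (pt 0 τ)).im = 0
  bd : ∀ τ, -L ≤ τ → (G (pt (3 * π / 4) τ)).im = (Λ τ * G (pt (π / 4) τ)).im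
  asym : ∀ ε : ℝ, 0 < ε → ∃ L' : ℝ, ∀ x τ : ℝ, |x| ≤ 3 * π / 4 → L' ≤ τ →
    ‖G (pt x τ) - a + b * Complex.exp (Complex.I * pt x τ)‖ ≤ ε * exp (-τ)
  im : ∀ x τ, 0 ≤ x → x ≤ 3 * π / 4 → -L ≤ τ →
    |(G (pt x τ)).im| ≤ 0.75 * (exp (-2 * τ / 3) * sin (2 * x / 3))
  mid : ∀ τ, -L ≤ τ → ‖a - G (pt (π / 4) τ)‖ ≤ exp (-2 * τ / 3) / 2
  dual : ∀ x τ, 0 ≤ x → x ≤ 3 * π / 4 → -L ≤ τ →
    |((a - G (pt x τ)) * Complex.exp (-(4 * Complex.I * pt x τ / 3))).im| ≤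
      1.25 * (exp (2 * τ / 3) * sin (2 * x / 3))

lemma sh_scale {Λ : ℝ → ℂ} {L b a : ℝ} {G : ℂ → ℂ} (h : Sh Λ L b G) (h0 : 0 ≤ a) (h1 : a ≤ 1) :
    ShA a Λ L (a * b) fun z => a * G z := by
  have k : ∀ {u v : ℝ}, |u| ≤ v → |a * u| ≤ v := fun {u v} e => by
    rw [abs_mul, abs_of_nonneg h0]
    exact (mul_le_of_le_one_left (abs_nonneg _) h1).trans e
  have k' : ∀ {u : ℂ} {v : ℝ}, ‖u‖ ≤ v → ‖a * u‖ ≤ v := fun {u v} e => by
    rw [norm_mul, Complex.norm_real, Real.norm_eq_abs, abs_of_nonneg h0]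
    exact (mul_le_of_le_one_left (norm_nonneg _) h1).trans e
  refine ⟨by rwa [abs_of_nonneg h0], h.hol.const_mul _,
    fun τ => by rw [Complex.im_ofReal_mul, h.left, mul_zero], fun τ hτ => ?_, fun ε hε => ?_,
    fun x τ a1 a2 a3 => ?_, fun τ hτ => ?_, fun x τ a1 a2 a3 => ?_⟩
  · rw [mul_left_comm, Complex.im_ofReal_mul, Complex.im_ofReal_mul, h.bd τ hτ]
  · obtain ⟨L', hL⟩ := h.asym ε hε
    refine ⟨L', fun x τ a1 a2 => ?_⟩
    convert k' (hL x τ a1 a2) using 2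
    push_cast
    ring
  · rw [Complex.im_ofReal_mul]
    exact k (h.im x τ a1 a2 a3)
  · convert k' (h.mid τ hτ) using 2
    ring
  · rw [← mul_one_sub, mul_assoc, Complex.im_ofReal_mul]
    exact k (h.dual x τ a1 a2 a3)

section G

variable {Λ Λ' : ℝ → ℂ} {a L b b' τ : ℝ} {G G' : ℂ → ℂ}

lemma xcauchy_G (h : ShA a Λ L b G) (hτ : -L ≤ τ) :
    ‖G (pt (π / 4) τ)‖ ≤ 1 + exp (-τ / 3) ^ 2 / 2 := by
  have h1 := h.mid τ hτ
  have h2 := norm_sub_le (a : ℂ) (a - G (pt (π / 4) τ))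
  have h3 := h.le1
  rw [sub_sub_cancel, Complex.norm_real, Real.norm_eq_abs] at h2
  rw [cauchy_w2] at h1
  linarith

lemma xcauchy_far (h : ShA a Λ L b G) (hΛ : LamOK Λ L) (hτ : -L ≤ τ) {y : ℝ} (hy : 2 ≤ y)
    (hw : y ≤ exp (-τ / 3)) : |(G (pt (3 * π / 4) τ)).im| ≤ 4 / y ^ 4 * exp (-τ / 3) ^ 2 := by
  have h1 := xcauchy_G h hτ
  have h2 := hΛ.dec τ hτ
  rw [h.bd τ hτ]
  refine (Complex.abs_im_le_norm _).trans ?_
  rw [norm_mul]
  have h3 : y ^ 4 ≤ exp (-τ / 3) ^ 4 := pow_le_pow_left₀ (by linarith) hw 4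
  have y0 : 0 < y ^ 4 := by positivity
  refine mul_le_mul (h2.trans ?_) (h1.trans (by nlinarith)) (norm_nonneg _) (by positivity)
  rw [exp_neg, inv_eq_one_div, div_le_div_iff₀ (exp_pos _) y0]
  have h4 := add_one_le_exp (2.59 * tt τ)
  rw [cauchy_w4] at h4 ⊢
  linarith

lemma xcauchy_split (h : ShA a Λ L b G) (h' : ShA a Λ' L b' G') (hτ : -L ≤ τ) {δ : ℝ}
    (hδ : ‖Λ τ - Λ' τ‖ ≤ δ * tt τ) : ∃ g : ℝ,
    |g| ≤ δ * (exp (-τ / 3) ^ 4 / 4) * (1 + exp (-τ / 3) ^ 2 / 2) ∧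
    (G (pt (3 * π / 4) τ) - G' (pt (3 * π / 4) τ)).im =
      (Λ τ).re * (G (pt (π / 4) τ) - G' (pt (π / 4) τ)).im +
      (Λ τ).im * (G (pt (π / 4) τ) - G' (pt (π / 4) τ)).re + g := by
  refine ⟨((Λ τ - Λ' τ) * G' (pt (π / 4) τ)).im, ?_, ?_⟩
  · refine (Complex.abs_im_le_norm _).trans ?_
    rw [norm_mul, ← cauchy_w4]
    exact mul_le_mul hδ (xcauchy_G h' hτ) (norm_nonneg _) ((norm_nonneg _).trans hδ)
  · rw [Complex.sub_im, h.bd τ hτ, h'.bd τ hτ]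
    simp only [Complex.mul_im, Complex.sub_im, Complex.sub_re]
    ring

lemma xcauchy_mk (h : ShA a Λ L b G) (h' : ShA a Λ' L b' G') {M : ℝ} (hM : 0 ≤ M)
    (hr : ∀ τ, -L ≤ τ → |(G (pt (3 * π / 4) τ) - G' (pt (3 * π / 4) τ)).im| /
      exp (-2 * τ / 3) ≤ M) : cauchyD (fun z => G z - G' z) L M := by
  refine ⟨h.hol.sub h'.hol, fun τ => by rw [Complex.sub_im, h.left, h'.left, sub_zero],
    fun x τ a' b c => ?_, fun x τ a' b c => ?_, hM, fun τ a' => (div_le_iff₀ (exp_pos _)).1 (hr τ a')⟩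
  · rw [Complex.sub_im]
    linarith [abs_sub (G (pt x τ)).im (G' (pt x τ)).im, h.im x τ a' b c, h'.im x τ a' b c]
  · rw [show G (pt x τ) - G' (pt x τ) = (a - G' (pt x τ)) - (a - G (pt x τ)) by ring, sub_mul,
      Complex.sub_im]
    exact (abs_sub _ _).trans (by linarith [h.dual x τ a' b c, h'.dual x τ a' b c])

end G

/-- first step: the difference of two solutions is small at the scale `sqrt t` -/
theorem xsh_step {ε : ℝ} (hε : 0 < ε) : ∃ L δ : ℝ, 0 ≤ L ∧ 0 < δ ∧ δ ≤ ε ∧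
    ∀ (Λ Λ' : ℝ → ℂ) (a b b' : ℝ) (G G' : ℂ → ℂ), ShA a Λ L b G → ShA a Λ' L b' G' → LamOK Λ L →
      LamOK Λ' L → (∀ τ, -L ≤ τ → ‖Λ τ - Λ' τ‖ ≤ δ * tt τ) →
      (∀ x, 0 ≤ x → x ≤ 3 * π / 4 → |(G (pt x 0) - G' (pt x 0)).im| ≤ ε * sin (2 * x / 3)) ∧
      ∀ τ, 0 ≤ τ → ‖G (pt (π / 4) τ) - G' (pt (π / 4) τ)‖ ≤ ε * exp (-2 * τ / 3) := by
  obtain ⟨y, hy⟩ : ∃ y, y = exp (1 + 80 / ε) := ⟨_, rfl⟩
  have e80 : 0 < 80 / ε := by positivity
  have e52 : 0 < 52 / ε := by positivity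
  have y1 : 2 + 80 / ε ≤ y := by rw [hy]; linarith [add_one_le_exp (1 + 80 / ε)]
  have y2 : 2 ≤ y := by linarith
  have y3 : 4 / y ^ 4 ≤ ε / 20 := by
    have h1 : y ≤ y ^ 4 := le_self_pow₀ (by linarith) (by norm_num)
    have h2 : 80 ≤ y ^ 4 * ε := (div_le_iff₀ hε).1 (by linarith)
    rw [div_le_div_iff₀ (by positivity) (by norm_num)]
    linarith
  obtain ⟨L, hL⟩ : ∃ L, L = 3 * (1 + 80 / ε + 52 / ε) := ⟨_, rfl⟩
  have L0 : 0 ≤ L := by rw [hL]; positivity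
  have k1 : exp (-L / 3) * y ≤ ε / 52 := by
    rw [hy, ← exp_add, show -L / 3 + (1 + 80 / ε) = -(52 / ε) by rw [hL]; ring, exp_neg,
      inv_le_comm₀ (exp_pos _) (by positivity), inv_div]
    linarith [add_one_le_exp (52 / ε)]
  obtain ⟨C, hC⟩ : ∃ C, C = y ^ 2 / 4 * (1 + y ^ 2 / 2) := ⟨_, rfl⟩
  have C0 : 0 < C := by rw [hC]; positivity
  obtain ⟨δ, hδ⟩ : ∃ δ, δ = ε / (10 * (1 + C)) := ⟨_, rfl⟩
  have δ0 : 0 < δ := by rw [hδ]; positivity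
  have δ1 : δ * (10 * (1 + C)) = ε := by rw [hδ]; field_simp
  have δ2 : 0 < δ * C := by positivity
  refine ⟨L, δ, L0, δ0, by linarith, fun Λ Λ' a b b' G G' h h' l l' hΛ => ?_⟩
  have r0 := exp_pos (-L / 3)
  have mid : ∀ M, cauchyD (fun z => G z - G' z) L M → ∀ τ, -L ≤ τ → exp (-τ / 3) ≤ y →
      |(Λ τ).re * (G (pt (π / 4) τ) - G' (pt (π / 4) τ)).im +
        (Λ τ).im * (G (pt (π / 4) τ) - G' (pt (π / 4) τ)).re| ≤
          0.58 * ((M + 5.2 * (ε / 52)) * exp (-τ / 3) ^ 2) ∧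
      (G (pt (π / 4) τ) - G' (pt (π / 4) τ)).re ^ 2 + (G (pt (π / 4) τ) - G' (pt (π / 4) τ)).im ^ 2 ≤
        ((M + 5.2 * (ε / 52)) * exp (-τ / 3) ^ 2) ^ 2 := fun M hD τ hτ hw => by
    obtain ⟨a1, a2⟩ := hD.mid hτ ((mul_le_mul_of_nonneg_left hw r0.le).trans k1)
    refine cauchy_alg a1 a2 ?_ (l.rot τ hτ)
    rw [← anab_norm_sq]
    exact pow_le_one₀ (norm_nonneg _) (l.n1 τ hτ)
  obtain ⟨M, M0, hM, M1⟩ := cauchy_fix (L := L) (B := 1.5) (κ := 0.26 * ε)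
    (f := fun τ => |(G (pt (3 * π / 4) τ) - G' (pt (3 * π / 4) τ)).im| / exp (-2 * τ / 3))
    (fun τ => by positivity)
    (fun τ hτ => by
      have a1 := h.im _ τ (by positivity) le_rfl hτ
      have a2 := h'.im _ τ (by positivity) le_rfl hτ
      rw [anae_s3, mul_one] at a1 a2
      rw [div_le_iff₀ (exp_pos _), Complex.sub_im]
      exact (abs_sub _ _).trans (by linarith))
    (fun M M0 hM τ hτ => by
      rw [div_le_iff₀ (exp_pos _), cauchy_w2]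
      have w0 := exp_pos (-τ / 3)
      have w2 : 0 < exp (-τ / 3) ^ 2 := by positivity
      have c0 : 0 ≤ ε * exp (-τ / 3) ^ 2 := by positivity
      rcases le_total (exp (-τ / 3)) y with hw | hw
      · obtain ⟨g, g1, g2⟩ := xcauchy_split h h' hτ (hΛ τ hτ)
        have a1 := (mid M (xcauchy_mk h h' M0 hM) τ hτ hw).1
        have a2 : exp (-τ / 3) ^ 2 / 4 * (1 + exp (-τ / 3) ^ 2 / 2) ≤ C := by
          rw [hC]; gcongr
        have a3 := mul_le_mul_of_nonneg_left a2 (mul_pos δ0 w2).le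
        have a4 := mul_le_mul_of_nonneg_right (show δ * C ≤ ε / 10 by linarith) w2.le
        rw [g2]
        refine (abs_add_le _ _).trans ?_
        nlinarith
      · have a1 := xcauchy_far h l hτ y2 hw
        have a2 := xcauchy_far h' l' hτ y2 hw
        have a3 := mul_le_mul_of_nonneg_right y3 w2.le
        have a4 : 0 ≤ M * exp (-τ / 3) ^ 2 := by positivity
        rw [Complex.sub_im]
        refine (abs_sub _ _).trans ?_
        linarith)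
  have hD := xcauchy_mk h h' M0 hM
  refine ⟨fun x h0 h1 => ?_, fun τ hτ => ?_⟩
  · have a1 := hD.P h0 h1 (τ := 0) (by linarith)
    obtain ⟨t0, t1, -⟩ := cauchy_trig h0 h1
    simp only [mul_zero, zero_div, neg_zero, exp_zero, one_mul] at a1
    have a2 : exp (-L / 3) ≤ ε / 52 := (le_mul_of_one_le_right r0.le (by linarith)).trans k1
    have a3 := mul_le_mul_of_nonneg_left t1 r0.le
    have a4 := mul_le_mul_of_nonneg_right a2 t0
    have a5 := mul_le_mul_of_nonneg_right M1 t0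
    have a6 := mul_nonneg hε.le t0
    linarith
  · have a1 := (mid M hD τ (by linarith)
      ((exp_le_one_iff.2 (by linarith)).trans (by linarith))).2
    rw [← anab_norm_sq] at a1
    rw [cauchy_w2]
    refine (le_of_sq_le_sq a1 (by positivity)).trans ?_
    exact mul_le_mul_of_nonneg_right (by linarith) (by positivity)

lemma xcauchy_half {Λ Λ' : ℝ → ℂ} {a L b b' e δ : ℝ} {G G' : ℂ → ℂ} (hL : 0 ≤ L) (he : 0 < e)
    (hδ : δ ≤ e) (h : ShA a Λ L b G) (h' : ShA a Λ' L b' G') (l : LamOK Λ L)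
    (hΛ : ∀ τ, -L ≤ τ → ‖Λ τ - Λ' τ‖ ≤ δ * tt τ)
    (h1 : ∀ x, 0 ≤ x → x ≤ 3 * π / 4 → |(G (pt x 0) - G' (pt x 0)).im| ≤ e * sin (2 * x / 3))
    (h2 : ∀ τ, 0 ≤ τ → ‖G (pt (π / 4) τ) - G' (pt (π / 4) τ)‖ ≤ e * exp (-2 * τ / 3)) :
    b - b' ≤ 30 * e := by
  have ee : ∀ x τ, (((30 * e : ℝ) : ℂ) * anae_b 3 0 (pt x τ) -
      ((7.5 * e : ℝ) : ℂ) * anae_b 4 0 (pt x τ) + (G (pt x τ) - G' (pt x τ))).im =
      30 * e * (exp (-τ / 3) ^ 3 * sin (3 * (x / 3))) -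
      7.5 * e * (exp (-τ / 3) ^ 4 * sin (4 * (x / 3))) + (G (pt x τ) - G' (pt x τ)).im :=
    fun x τ => by
      rw [Complex.add_im, Complex.sub_im]
      simp only [Complex.im_ofReal_mul, anae_im, Nat.cast_ofNat, sub_zero]
  obtain ⟨v1, v2, -, v4, v5, -, v7, v8, -⟩ := anae_vals
  have up : ∀ τ, 0 ≤ τ → -(G (pt (π / 2) τ) - G' (pt (π / 2) τ)).im ≤ 30 * e * exp (-τ) := by
    intro τ hτ
    have key := nlmp (g := fun z => ((30 * e : ℝ) : ℂ) * anae_b 3 0 z -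
        ((7.5 * e : ℝ) : ℂ) * anae_b 4 0 z + (G z - G' z))
      ((((anae_diff 3 0).const_mul _).sub ((anae_diff 4 0).const_mul _)).differentiableOn.add
        (h.hol.sub h'.hol)) (t₀ := 0) (L := 0) (C := 37.5 * e + 1.5)
      (fun τ _ => by rw [ee]; simp [h.left, h'.left])
      (fun τ hτ => ?_) (fun x h0 h1' => ?_) (fun x τ h0 h1' hτ => ?_) (x := π / 2) (by positivity)
      (by linarith [pi_pos]) hτ
    · rw [ee, v7] at key
      have w4 : 0 ≤ e * (exp (-τ / 3) ^ 4 * sin (4 * (π / 2 / 3))) := by positivity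
      rw [cauchy_w3]
      linarith
    · have hτ' : -L ≤ τ := by linarith
      obtain ⟨g, g1, g2⟩ := xcauchy_split h h' hτ' (hΛ τ hτ')
      obtain ⟨r1, r3⟩ := l.pos τ hτ
      have r2 := (Complex.re_le_norm _).trans (l.n1 τ hτ')
      have a1 := (Complex.abs_re_le_norm _).trans (h2 τ hτ)
      have a2 := mul_le_mul r3 a1 (abs_nonneg _) ((abs_nonneg _).trans r3)
      rw [← abs_mul, cauchy_w4, cauchy_w2] at a2
      refine anae_min (by linarith) r2 ?_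
      rw [ee, ee, v1, v2, v4, v5, g2]
      have w0 := exp_pos (-τ / 3)
      have w1 : exp (-τ / 3) ≤ 1 := exp_le_one_iff.2 (by linarith)
      generalize exp (-τ / 3) = w at *
      generalize (Λ τ).re = r at *
      have w2 : w ^ 2 ≤ 1 := pow_le_one₀ w0.le w1
      have w4 : 0 < e * w ^ 4 := by positivity
      have q3 : (1.73 : ℝ) ≤ √3 := le_sqrt_of_sq_le (by norm_num)
      have c1 : δ * (w ^ 4 / 4) * (1 + w ^ 2 / 2) ≤ e * (w ^ 4 / 4) * 1.5 :=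
        mul_le_mul (mul_le_mul_of_nonneg_right hδ (by positivity)) (by linarith) (by positivity)
          (by positivity)
      have c2 : 0 ≤ e * w ^ 3 * √2 * (1 - r) := mul_nonneg (by positivity) (by linarith)
      have c3 : e * w ^ 4 * r * 1.73 ≤ e * w ^ 4 * r * √3 :=
        mul_le_mul_of_nonneg_left q3 (mul_nonneg w4.le (by linarith))
      have c4 : e * w ^ 4 * (1 / 8) ≤ e * w ^ 4 * r := mul_le_mul_of_nonneg_left r1 w4.le
      have c5 : e * w ^ 4 * w ^ 2 ≤ e * w ^ 4 := mul_le_of_le_one_right w4.le w2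
      linarith [(abs_le.1 a2).1, (abs_le.1 g1).1]
    · rw [ee]
      obtain ⟨t0, -, t2, t3, -⟩ := anae_trig (u := x / 3) (by linarith) (by linarith)
      have a1 := (abs_le.1 (h1 x h0 h1')).1
      rw [mul_div_assoc] at a1
      simp only [neg_zero, zero_div, exp_zero, one_pow, one_mul]
      linarith [mul_le_mul_of_nonneg_left t2 he.le, mul_le_mul_of_nonneg_left t3 he.le,
        mul_nonneg he.le t0]
    · rw [ee, Complex.sub_im]
      have hτ' : -L ≤ τ := by linarith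
      have a1 := (abs_le.1 (h.im x τ h0 h1' hτ')).1
      have a2 := (abs_le.1 (h'.im x τ h0 h1' hτ')).2
      have a3 := mul_le_of_le_one_right (exp_pos (-2 * τ / 3)).le (sin_le_one (2 * x / 3))
      rw [cauchy_w2] at a1 a2 a3 ⊢
      have w0 := exp_pos (-τ / 3)
      have w1 : exp (-τ / 3) ≤ 1 := exp_le_one_iff.2 (by linarith)
      have p3 := abs_le.1 (anae_pw w0 w1 (abs_sin_le_one (3 * (x / 3))) (n := 3) (by norm_num))
      have p4 := abs_le.1 (anae_pw w0 w1 (abs_sin_le_one (4 * (x / 3))) (n := 4) (by norm_num))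
      linarith [mul_le_mul_of_nonneg_left p3.1 he.le, mul_le_mul_of_nonneg_left p4.2 he.le]
  refine le_of_forall_pos_le_add fun η hη => ?_
  obtain ⟨L1, hL1⟩ := h.asym _ (half_pos hη)
  obtain ⟨L2, hL2⟩ := h'.asym _ (half_pos hη)
  obtain ⟨τ, t0, t1, t2⟩ : ∃ τ, 0 ≤ τ ∧ L1 ≤ τ ∧ L2 ≤ τ :=
    ⟨max 0 (max L1 L2), le_max_left _ _, (le_max_left _ _).trans (le_max_right _ _),
      (le_max_right _ _).trans (le_max_right _ _)⟩
  have hx : |π / 2| ≤ 3 * π / 4 := anae_abs (by positivity) (by linarith [pi_pos])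
  have a1 := abs_le.1 ((Complex.abs_im_le_norm _).trans (hL1 _ τ hx t1))
  have a2 := abs_le.1 ((Complex.abs_im_le_norm _).trans (hL2 _ τ hx t2))
  have a3 := up τ t0
  rw [Complex.add_im, cauchy_e1, Complex.sub_im, Complex.ofReal_im, sin_pi_div_two] at a1 a2
  rw [Complex.sub_im] at a3
  refine le_of_mul_le_mul_right ?_ (exp_pos (-τ))
  linarith [a1.2, a2.1]

theorem xsh_cauchy {ε : ℝ} (hε : 0 < ε) : ∃ L δ : ℝ, 0 ≤ L ∧ 0 < δ ∧
    ∀ (Λ Λ' : ℝ → ℂ) (a b b' : ℝ) (G G' : ℂ → ℂ), ShA a Λ L b G → ShA a Λ' L b' G' → LamOK Λ L →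
      LamOK Λ' L → (∀ τ, -L ≤ τ → ‖Λ τ - Λ' τ‖ ≤ δ * tt τ) → |b - b'| ≤ ε := by
  have he : 0 < ε / 30 := by positivity
  obtain ⟨L, δ, L0, δ0, δ1, H⟩ := xsh_step he
  refine ⟨L, δ, L0, δ0, fun Λ Λ' a b b' G G' h h' l l' hΛ => ?_⟩
  have hΛ' : ∀ τ, -L ≤ τ → ‖Λ' τ - Λ τ‖ ≤ δ * tt τ := fun τ hτ => by
    rw [norm_sub_rev]; exact hΛ τ hτ
  obtain ⟨a1, a2⟩ := H Λ Λ' a b b' G G' h h' l l' hΛ
  obtain ⟨a3, a4⟩ := H Λ' Λ a b' b G' G h' h l' l hΛ'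
  have c1 := xcauchy_half L0 he δ1 h h' l hΛ a1 a2
  have c2 := xcauchy_half L0 he δ1 h' h l' hΛ' a3 a4
  exact abs_le.2 ⟨by linarith, by linarith⟩

end Pool.Agent.Lib.MP_4960b8_pr.EX
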