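import Mathlib

/-! An entire function given by two Laplace integrals and its growth in a sector. -/

namespace Pool.Agent.Lib.MP_4960b8_pr.EX

open Real MeasureTheory Set

/-- the integrand -/
noncomputable def jf (n : ℕ) (u : ℂ) (p : ℝ) : ℂ := (p : ℂ) ^ n * Complex.exp (-(p : ℂ) ^ 4 - u * p)

/-- the Laplace integrals -/
noncomputable def Jn (n : ℕ) (u : ℂ) : ℂ := ∫ p in Ioi (0 : ℝ), jf n u p

lemma jf_le (n : ℕ) {u : ℂ} {R p : ℝ} (hu : ‖u‖ ≤ R) (hp : 0 ≤ p) :
    ‖jf n u p‖ ≤ exp ((n + R + 1) ^ 2) * exp (-1 * p) := by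
  have R0 : 0 ≤ R := (norm_nonneg _).trans hu
  have n0 : (0 : ℝ) ≤ n := n.cast_nonneg
  have e1 : (-(p : ℂ) ^ 4 - u * p).re = -p ^ 4 - u.re * p := by
    rw [← Complex.ofReal_pow]; simp [-Complex.ofReal_pow]
  have e2 : p ^ n ≤ exp (n * p) := by
    rw [exp_nat_mul]; exact pow_le_pow_left₀ hp (by linarith [add_one_le_exp p]) n
  have e3 := (abs_le.1 ((Complex.abs_re_le_norm u).trans hu)).1
  rw [jf, norm_mul, norm_pow, Complex.norm_real, Real.norm_eq_abs, abs_of_nonneg hp,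
    Complex.norm_exp, e1, ← exp_add]
  refine (mul_le_mul_of_nonneg_right e2 (exp_pos _).le).trans ?_
  rw [← exp_add, exp_le_exp]
  have e4 := mul_le_mul_of_nonneg_right e3 hp
  obtain ⟨A, hA⟩ : ∃ A, A = (n : ℝ) + R + 1 := ⟨_, rfl⟩
  have e5 : A * p - p ^ 4 ≤ A ^ 2 := by
    rcases le_total p A with h | h
    · nlinarith [mul_le_mul_of_nonneg_left h (show 0 ≤ A by linarith), pow_nonneg hp 4]
    · have h1 : p ^ 2 ≤ p ^ 4 := pow_le_pow_right₀ (by linarith) (by norm_num)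
      nlinarith [mul_le_mul_of_nonneg_right h hp, sq_nonneg A]
  rw [← hA]
  have e6 : A * p = n * p + R * p + p := by rw [hA]; ring
  linarith

lemma jf_cont (n : ℕ) (u : ℂ) : Continuous (jf n u) := by
  unfold jf; fun_prop

lemma jf_int (n : ℕ) (u : ℂ) : IntegrableOn (jf n u) (Ioi 0) :=
  Integrable.mono' ((exp_neg_integrableOn_Ioi 0 one_pos).const_mul _)
    (jf_cont n u).aestronglyMeasurable
    ((ae_restrict_iff' measurableSet_Ioi).2 (.of_forall fun _ hp => jf_le n le_rfl (le_of_lt hp)))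

lemma Jn_deriv (n : ℕ) (u : ℂ) : HasDerivAt (Jn n) (-Jn (n + 1) u) u := by
  have := (hasDerivAt_integral_of_dominated_loc_of_deriv_le (μ := volume.restrict (Ioi (0 : ℝ)))
    (F := fun u p => jf n u p) (F' := fun u p => -jf (n + 1) u p) (x₀ := u)
    (bound := fun p => exp ((((n + 1 : ℕ) : ℝ) + (‖u‖ + 1) + 1) ^ 2) * exp (-1 * p))
    (Metric.ball_mem_nhds u one_pos)
    (.of_forall fun v => (jf_cont n v).aestronglyMeasurable) (jf_int n u)
    (jf_cont (n + 1) u).neg.aestronglyMeasurable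
    ((ae_restrict_iff' measurableSet_Ioi).2 (.of_forall fun p hp v hv => by
      rw [norm_neg]
      exact jf_le (n + 1) ((norm_le_norm_add_norm_sub' v u).trans
        (by linarith [mem_ball_iff_norm.1 hv])) (le_of_lt hp)))
    ((exp_neg_integrableOn_Ioi 0 one_pos).const_mul _)
    (.of_forall fun p v _ => by
      unfold jf
      refine (((((hasDerivAt_id v).mul_const (p : ℂ)).const_sub (-(p : ℂ) ^ 4)).cexp).const_mul
        ((p : ℂ) ^ n)).congr_deriv ?_
      simp only [id]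
      ring)).2
  rwa [integral_neg] at this

lemma Jn_conj (n : ℕ) (u : ℂ) : Jn n ((starRingEnd ℂ) u) = (starRingEnd ℂ) (Jn n u) := by
  rw [Jn, Jn, ← integral_conj]
  congr 1
  ext p
  simp [jf, ← Complex.exp_conj]

lemma Jn_real (n : ℕ) (u : ℝ) : (Jn n u).im = 0 :=
  Complex.conj_eq_iff_im.1 (by rw [← Jn_conj, Complex.conj_ofReal])

lemma Jn_zero (n : ℕ) : Jn n 0 = (1 / 4 * Gamma ((n + 1) / 4) : ℝ) := by
  rw [← integral_rpow_mul_exp_neg_rpow (p := 4) (q := n) (by norm_num)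
    (by linarith [n.cast_nonneg (α := ℝ)]), ← integral_complex_ofReal, Jn]
  congr 1
  ext p
  rw [show (4 : ℝ) = (4 : ℕ) by norm_num, rpow_natCast, rpow_natCast]
  simp [jf]

/-- the sum over the two rays -/
noncomputable def FF (η : ℂ) : ℂ := Jn 1 ((1 + Complex.I) * η) + Jn 1 ((1 - Complex.I) * η)

lemma FF_deriv (η : ℂ) : HasDerivAt FF (-Jn 2 ((1 + Complex.I) * η) * (1 + Complex.I) +
    -Jn 2 ((1 - Complex.I) * η) * (1 - Complex.I)) η := by
  have a := (Jn_deriv 1 ((1 + Complex.I) * η)).comp η ((hasDerivAt_id η).const_mul _)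
  have b := (Jn_deriv 1 ((1 - Complex.I) * η)).comp η ((hasDerivAt_id η).const_mul _)
  rw [mul_one] at a b
  exact a.add b

lemma FF_diff : Differentiable ℂ FF := fun η => (FF_deriv η).differentiableAt

lemma FF_zero : FF 0 = (√π / 2 : ℝ) := by
  rw [FF, mul_zero, mul_zero, Jn_zero, show (((1 : ℕ) : ℝ) + 1) / 4 = 1 / 2 by norm_num,
    Gamma_one_half_eq]
  push_cast
  ring

lemma FF_deriv0 : HasDerivAt FF (-(Gamma (3 / 4) / 2 : ℝ)) 0 := by
  convert FF_deriv 0 using 1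
  rw [mul_zero, mul_zero, Jn_zero, show (((2 : ℕ) : ℝ) + 1) / 4 = 3 / 4 by norm_num]
  push_cast
  ring

lemma FF_real (r : ℝ) : (FF r).im = 0 := by
  have : (1 - Complex.I) * r = (starRingEnd ℂ) ((1 + Complex.I) * r) := by
    simp [sub_eq_add_neg]
  rw [FF, this, Jn_conj]
  simp

/-- the phase -/
noncomputable def ph (w v : ℂ) : ℂ := v ^ 4 / 4 - w ^ 3 * v + 3 / 4 * w ^ 4

lemma ph_re (w v : ℂ) : (ph w v).re =
    (v.re ^ 4 - 6 * v.re ^ 2 * v.im ^ 2 + v.im ^ 4) / 4 -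
      ((w.re ^ 3 - 3 * w.re * w.im ^ 2) * v.re - (3 * w.re ^ 2 * w.im - w.im ^ 3) * v.im) +
      3 / 4 * (w.re ^ 4 - 6 * w.re ^ 2 * w.im ^ 2 + w.im ^ 4) := by
  simp [ph, pow_succ]
  ring

lemma ph_vert {w : ℂ} (hw : |w.im| ≤ w.re) {s : ℝ} (hs : |s| ≤ w.re) :
    (ph w (w.re + s * Complex.I)).re ≤ 0 := by
  rw [ph_re]
  simp only [Complex.add_re, Complex.ofReal_re, Complex.mul_re, Complex.I_re, Complex.ofReal_im,
    Complex.I_im, Complex.add_im, Complex.mul_im, mul_zero, mul_one, sub_zero, add_zero, zero_add]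
  generalize w.re = a at *
  generalize w.im = y at *
  have h1 : y ^ 2 ≤ a ^ 2 := sq_le_sq' (abs_le.1 hw).1 (abs_le.1 hw).2
  have h2 : s ^ 2 ≤ a ^ 2 := sq_le_sq' (abs_le.1 hs).1 (abs_le.1 hs).2
  have h3 : 0 ≤ 3 / 2 * a ^ 2 - 3 / 4 * y ^ 2 - s * y / 2 - s ^ 2 / 4 := by
    nlinarith [sq_nonneg (s - y)]
  nlinarith [mul_nonneg (sq_nonneg (s - y)) h3]

lemma ray_alg {a y q : ℝ} (hy : |y| ≤ a) (hq : 0 ≤ q) :
    -(a + q) ^ 4 - (a + q) * (a ^ 3 - 3 * a * y ^ 2 - (3 * a ^ 2 * y - y ^ 3)) +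
      3 / 4 * (a ^ 4 - 6 * a ^ 2 * y ^ 2 + y ^ 4) ≤ -q ^ 4 := by
  obtain ⟨h1, h2⟩ := abs_le.1 hy
  have a0 : 0 ≤ a := (abs_nonneg _).trans hy
  have b1 : 0 ≤ (a - y) ^ 3 * (5 / 4 * a + 3 / 4 * y) :=
    mul_nonneg (pow_nonneg (by linarith) 3) (by linarith)
  have b2 : 0 ≤ q * ((a - y) * (5 * a ^ 2 + 2 * a * y - y ^ 2)) :=
    mul_nonneg hq (mul_nonneg (by linarith) (by nlinarith))
  have b3 : 0 ≤ a ^ 2 * q ^ 2 := by positivity
  have b4 : 0 ≤ a * q ^ 3 := by positivity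
  nlinarith

lemma tail_le {a q r : ℝ} (ha : 0 ≤ a) (hq : 0 ≤ q) (hr : r ≤ -q ^ 4) :
    (a + q) * exp r ≤ (a + 1) * exp (2 + a) * exp (-(a + q)) := by
  have h1 : a + q ≤ (a + 1) * exp q := by nlinarith [add_one_le_exp q, mul_nonneg ha hq]
  refine (mul_le_mul_of_nonneg_right h1 (exp_pos _).le).trans ?_
  rw [mul_assoc, mul_assoc, ← exp_add, ← exp_add]
  refine mul_le_mul_of_nonneg_left (exp_le_exp.2 ?_) (by linarith)
  nlinarith [sq_nonneg (q ^ 2 - 1), sq_nonneg (q - 1), sq_nonneg q]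

theorem FF_le {w : ℂ} (hw : |w.im| ≤ w.re) :
    ‖FF (w ^ 3) * Complex.exp (3 / 4 * w ^ 4)‖ ≤ 30 * (1 + w.re ^ 2) := by
  have a0 : 0 ≤ w.re := (abs_nonneg _).trans hw
  obtain ⟨P, hP⟩ := (show Differentiable ℂ fun v => v * Complex.exp (ph w v) by
    unfold ph; fun_prop).isExactOn_univ
  let g : ℝ → ℂ := fun p => p * Complex.exp (ph w ((1 + Complex.I) * p)) +
    p * Complex.exp (ph w ((1 - Complex.I) * p))
  have i4 : ∀ p : ℝ, ((1 + Complex.I) * p) ^ 4 = -4 * (p : ℂ) ^ 4 ∧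
      ((1 - Complex.I) * p) ^ 4 = -4 * (p : ℂ) ^ 4 := fun p => by
    constructor
    · linear_combination (p : ℂ) ^ 4 * (Complex.I ^ 2 + 4 * Complex.I + 5) * Complex.I_sq
    · linear_combination (p : ℂ) ^ 4 * (Complex.I ^ 2 - 4 * Complex.I + 5) * Complex.I_sq
  have eg : g = fun p => (jf 1 ((1 + Complex.I) * w ^ 3) p + jf 1 ((1 - Complex.I) * w ^ 3) p) *
      Complex.exp (3 / 4 * w ^ 4) := by
    ext p
    simp only [g, jf, ph, (i4 p).1, (i4 p).2, pow_one, add_mul _ _ (Complex.exp _), mul_assoc,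
      ← Complex.exp_add]
    congr 3 <;> ring
  have ig : IntegrableOn g (Ioi 0) := by
    rw [eg]; exact ((jf_int 1 _).add (jf_int 1 _)).mul_const _
  have e0 : FF (w ^ 3) * Complex.exp (3 / 4 * w ^ 4) = ∫ p in Ioi (0 : ℝ), g p := by
    rw [eg, integral_mul_const, integral_add (jf_int 1 _) (jf_int 1 _)]
    rfl
  have e1 := intervalIntegral.integral_Ioi_sub_Ioi ig a0
  have e2 : ∫ p in (0 : ℝ)..w.re, 2 * Complex.I * g p =
      (P ((1 + Complex.I) * w.re) - P ((1 - Complex.I) * w.re)) -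
      (P ((1 + Complex.I) * (0 : ℝ)) - P ((1 - Complex.I) * (0 : ℝ))) := by
    refine intervalIntegral.integral_eq_sub_of_hasDerivAt
      (f := fun p : ℝ => P ((1 + Complex.I) * p) - P ((1 - Complex.I) * p)) (fun p _ => ?_)
      (Continuous.intervalIntegrable (by simp only [g, ph]; fun_prop) _ _)
    have a := ((hP _ (mem_univ _)).comp (p : ℂ)
      ((hasDerivAt_id (p : ℂ)).const_mul (1 + Complex.I))).comp_ofReal
    have b := ((hP _ (mem_univ _)).comp (p : ℂ)
      ((hasDerivAt_id (p : ℂ)).const_mul (1 - Complex.I))).comp_ofReal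
    refine (a.sub b).congr_deriv ?_
    simp only [g, id]
    linear_combination ((p : ℂ) * Complex.exp (ph w ((1 + Complex.I) * p)) -
      p * Complex.exp (ph w ((1 - Complex.I) * p))) * Complex.I_sq
  have e3 : ‖P (w.re + (w.re : ℝ) * Complex.I) - P (w.re + (-w.re : ℝ) * Complex.I)‖ ≤
      2 * w.re * (w.re - -w.re) := by
    refine norm_image_sub_le_of_norm_deriv_le_segment'
      (f := fun s : ℝ => P (w.re + s * Complex.I))
      (f' := fun s => (w.re + s * Complex.I) * Complex.exp (ph w (w.re + s * Complex.I)) * Complex.I)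
      (fun s _ => HasDerivAt.hasDerivWithinAt ?_) (fun s hs => ?_) _ ⟨by linarith, le_rfl⟩
    · have a := ((hP _ (mem_univ _)).comp (s : ℂ)
        (((hasDerivAt_id (s : ℂ)).mul_const Complex.I).const_add (w.re : ℂ))).comp_ofReal
      refine a.congr_deriv ?_
      simp only [id, one_mul]
    · have hs' : |s| ≤ w.re := abs_le.2 ⟨hs.1, hs.2.le⟩
      have b1 := exp_le_one_iff.2 (ph_vert hw hs')
      have b2 : ‖(w.re : ℂ) + s * Complex.I‖ ≤ 2 * w.re := by
        refine (norm_add_le _ _).trans ?_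
        rw [norm_mul, Complex.norm_I, Complex.norm_real, Complex.norm_real, Real.norm_eq_abs,
          Real.norm_eq_abs, abs_of_nonneg a0]
        linarith
      rw [norm_mul, norm_mul, Complex.norm_I, mul_one, Complex.norm_exp]
      exact (mul_le_of_le_one_right (norm_nonneg _) b1).trans b2
  have e4 : ‖∫ p in (0 : ℝ)..w.re, g p‖ ≤ 2 * w.re ^ 2 := by
    rw [intervalIntegral.integral_const_mul] at e2
    have a := congrArg norm e2
    rw [norm_mul, norm_mul, Complex.norm_I, Complex.ofReal_zero, mul_zero, mul_zero, sub_self,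
      sub_zero, show (1 + Complex.I) * w.re = w.re + (w.re : ℝ) * Complex.I by ring,
      show (1 - Complex.I) * w.re = w.re + (-w.re : ℝ) * Complex.I by push_cast; ring,
      Complex.norm_ofNat] at a
    nlinarith
  have e5 : ‖∫ p in Ioi w.re, g p‖ ≤ ∫ p in Ioi w.re, 2 * ((w.re + 1) * exp (2 + w.re)) * exp (-p) := by
    refine norm_integral_le_of_norm_le ((integrableOn_exp_neg_Ioi _).const_mul _)
      ((ae_restrict_iff' measurableSet_Ioi).2 (.of_forall fun p hp => ?_))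
    obtain ⟨q, rfl⟩ : ∃ q, p = w.re + q := ⟨p - w.re, by ring⟩
    have hq : 0 ≤ q := (lt_add_iff_pos_right _).1 (mem_Ioi.1 hp) |>.le
    have r1 := ray_alg hw hq
    have r2 := ray_alg (a := w.re) (y := -w.im) (by rwa [abs_neg]) hq
    have t1 := tail_le (r := (ph w ((1 + Complex.I) * (w.re + q : ℝ))).re) a0 hq (by
      rw [ph_re]
      simp only [Complex.add_re, Complex.ofReal_re, Complex.mul_re, Complex.I_re, Complex.ofReal_im,
        Complex.I_im, Complex.add_im, Complex.mul_im, Complex.one_re, Complex.one_im]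
      linarith)
    have t2 := tail_le (r := (ph w ((1 - Complex.I) * (w.re + q : ℝ))).re) a0 hq (by
      rw [ph_re]
      simp only [Complex.sub_re, Complex.ofReal_re, Complex.mul_re, Complex.I_re, Complex.ofReal_im,
        Complex.I_im, Complex.sub_im, Complex.mul_im, Complex.one_re, Complex.one_im]
      linarith)
    refine (norm_add_le _ _).trans ?_
    rw [norm_mul, norm_mul, Complex.norm_exp, Complex.norm_exp, Complex.norm_real, Real.norm_eq_abs,
      abs_of_nonneg (by linarith)]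
    linarith
  rw [integral_const_mul, integral_exp_neg_Ioi, mul_assoc, mul_assoc, ← exp_add,
    show 2 + w.re + -w.re = 1 + 1 by ring, exp_add] at e5
  have e6 : exp 1 * exp 1 ≤ 9 := by nlinarith [exp_one_lt_three, exp_pos 1]
  have e7 := mul_le_mul_of_nonneg_left e6 (show 0 ≤ w.re + 1 by linarith)
  rw [e0, eq_add_of_sub_eq e1]
  refine (norm_add_le _ _).trans ?_
  nlinarith [sq_nonneg (w.re - 1)]

end Pool.Agent.Lib.MP_4960b8_pr.EX
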