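import Pool.Agent.Lib.MP_4960b8_pr.EX.Sol
import Pool.Agent.Lib.MP_4960b8_pr.AM.Moment

/-! The value of the constant. -/

namespace Pool.Agent.Lib.MP_4960b8_pr.EX

open Real SAW RN Filter Topology
open QK hiding vv

theorem rh_lim {ε : ℝ} (hε : 0 < ε) : ∃ T₀ : ℕ, ∀ T : ℕ, T₀ ≤ T → ∀ (b : ℝ) (Θ : ℂ → ℂ),
    RH T 1 b Θ → |b / (8 * T : ℝ) ^ (3 / 4 : ℝ) - gam * exp (3 * lk)| ≤ ε := by
  obtain ⟨a, a0, a1, hs'⟩ := sol
  obtain ⟨L, δ, L0, δ0, H⟩ := xsh_cauchy (mul_pos a0 hε)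
  obtain ⟨T1, hT1⟩ := lam_close L δ0
  refine ⟨max T1 (max 1000 ⌈1000 * tt (-L)⌉₊), fun T hT b Θ h => ?_⟩
  have h1 : 1000 ≤ T := ((le_max_left _ _).trans (le_max_right _ _)).trans hT
  have h2 : 1000 * tt (-L) ≤ T :=
    Nat.ceil_le.1 (((le_max_right _ _).trans (le_max_right _ _)).trans hT)
  have hT' : (1000 : ℝ) ≤ T := by exact_mod_cast h1
  have h8 : (0 : ℝ) < 8 * T := by linarith
  have hs : exp (4 * (log (8 * T) * (3 / 4)) / 3) = 8 * T := by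
    rw [show 4 * (log (8 * T) * (3 / 4)) / 3 = log (8 * T) by ring, exp_log h8]
  rw [rpow_def_of_pos h8, div_eq_mul_inv b, ← exp_neg]
  generalize log (8 * T) * (3 / 4) = s at hs
  have hL : L < s := by
    have : exp (-4 * -L / 3) < exp (4 * s / 3) := by
      rw [tt] at h2
      linarith
    linarith [exp_lt_exp.1 this]
  have k := H _ _ _ _ _ _ _ (sh_scale (rh_sh h1 h hs hL) a0.le a1) (hs' L)
    (lam_ok h1 L0 (by linarith)) (lamI_ok L0) (hT1 T ((le_max_left _ _).trans hT))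
  rw [← mul_sub, abs_mul, abs_of_pos a0] at k
  exact le_of_mul_le_mul_left k a0

lemma const_eq : 2 * s8 * (((8 : ℝ) ^ (3 / 4 : ℝ) * (gam * exp (3 * lk)) - c18 * 0) / (2 * c18)) =
    2 ^ (5 / 4 : ℝ) * (√2 - 1) * Gamma (3 / 4) / (3 ^ (3 / 8 : ℝ) * √π) := by
  have c0 := c8_pos
  have e1 : (8 : ℝ) ^ (3 / 4 : ℝ) = 2 * 2 ^ (5 / 4 : ℝ) := by
    rw [show (8 : ℝ) = 2 ^ (3 : ℝ) by norm_num, ← rpow_mul (by norm_num),
      show (3 : ℝ) * (3 / 4) = 1 + 5 / 4 by norm_num, rpow_add two_pos, rpow_one]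
  have e2 : exp (3 * lk) = (3 ^ (3 / 8 : ℝ))⁻¹ := by
    rw [rpow_def_of_pos (by norm_num), ← exp_neg, lk]
    congr 1
    ring
  have e3 : s8 = (√2 - 1) * c8 := by
    have a1 := sin_two_mul (π / 8)
    have a2 := cos_two_mul (π / 8)
    rw [show 2 * (π / 8) = π / 4 by ring] at a1 a2
    rw [sin_pi_div_four] at a1
    rw [cos_pi_div_four] at a2
    have a3 : √2 * √2 = 2 := mul_self_sqrt (by norm_num)
    refine mul_right_cancel₀ c0.ne' ?_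
    unfold s8 c8
    linear_combination -a1 / 2 + (√2 - 1) / 2 * a2 - a3 / 4
  have e4 : c18 = 2 * c8 := rfl
  have p0 : (0 : ℝ) < √π := sqrt_pos.2 pi_pos
  have p1 : (0 : ℝ) < 3 ^ (3 / 8 : ℝ) := by positivity
  rw [e1, e2, e3, e4, gam]
  field_simp
  ring

theorem flux_val : ∃ (S : ℕ → ℝ) (σ : ℝ),
    2 * s8 * σ = 2 ^ (5 / 4 : ℝ) * (√2 - 1) * Gamma (3 / 4) / (3 ^ (3 / 8 : ℝ) * √π) ∧
    (∀ T, 1000 ≤ T → Tendsto (RT T) atTop (𝓝 (S T))) ∧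
    Tendsto (fun T : ℕ => S T / (T : ℝ) ^ (3 / 4 : ℝ)) atTop (𝓝 σ) := by
  have k0 : 0 < 2 * c18 := mul_pos two_pos anaf_c18.1
  choose! b Θ h1 h2 using fun (T : ℕ) (hT : 1000 ≤ T) => flux_rh hT
  have hβ : Tendsto (fun T : ℕ => b T / (8 * T : ℝ) ^ (3 / 4 : ℝ)) atTop
      (𝓝 (gam * exp (3 * lk))) := by
    refine Metric.tendsto_atTop.2 fun ε hε => ?_
    obtain ⟨T₀, h⟩ := rh_lim (half_pos hε)
    refine ⟨max T₀ 1000, fun m hm => ?_⟩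
    rw [Real.dist_eq]
    exact (h m (le_of_max_le_left hm) _ _ (h1 _ (le_of_max_le_right hm))).trans_lt
      (half_lt_self hε)
  have h0 : Tendsto (fun T : ℕ => ((T : ℝ) ^ (3 / 4 : ℝ))⁻¹) atTop (𝓝 0) :=
    ((tendsto_rpow_atTop (by norm_num)).comp tendsto_natCast_atTop_atTop).inv_tendsto_atTop
  refine ⟨fun T => (b T - c18) / (2 * c18), _, const_eq, h2, ?_⟩
  refine (((hβ.const_mul ((8 : ℝ) ^ (3 / 4 : ℝ))).sub (h0.const_mul c18)).div_const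
    (2 * c18)).congr' ?_
  filter_upwards [eventually_ge_atTop 1] with T hT
  have hT0 : (0 : ℝ) < T := by exact_mod_cast (by omega : 0 < T)
  have h8 : (0 : ℝ) < (8 : ℝ) ^ (3 / 4 : ℝ) := by positivity
  have h9 : (0 : ℝ) < (T : ℝ) ^ (3 / 4 : ℝ) := by positivity
  rw [Real.mul_rpow (by norm_num) hT0.le]
  field_simp

theorem moment_val : ∃ (G : ℕ → ℕ → ℝ) (M : ℕ → ℝ),
    (∀ T β : ℕ, 1 ≤ β → HasSum (fun γ : saws {v | 0 ≤ v.k ∧ v.k < T} ⟨1, 1, 0⟩ ⟨1 + β, 1 - β, 0⟩ =>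
      xc ^ γ.1.length) (G T β)) ∧
    (∀ T : ℕ, HasSum (fun β : ℕ => (β : ℝ) * G T β) (M T)) ∧
    Tendsto (fun T : ℕ => M T / (T : ℝ) ^ (3 / 4 : ℝ)) atTop
      (𝓝 (2 ^ (5 / 4 : ℝ) * (√2 - 1) * Gamma (3 / 4) / (3 ^ (3 / 8 : ℝ) * √π))) := by
  obtain ⟨hs, -⟩ := AM.main
  obtain ⟨S, σ, hσ, h1, h2⟩ := flux_val
  refine ⟨fun T β => Zc (saws (AM.strip T) (qB 1) (qB (1 - β))),
    fun T => Zc (AM.spans (AM.strip T)), fun T β hβ => ?_, fun T => (AM.moment T (hs T)).2, ?_⟩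
  · have e1 : (⟨1, 1, 0⟩ : V) = qB 1 := rfl
    have e2 : (⟨1 + β, 1 - β, 0⟩ : V) = qB (1 - β) := V.ext (by dsimp only [qB]; ring) rfl rfl
    rw [e1, e2]
    exact ((AM.moment T (hs T)).1 β hβ).hasSum
  · rw [← hσ]
    refine (h2.const_mul (2 * s8)).congr' ?_
    filter_upwards [eventually_ge_atTop 1000] with T hT
    rw [(AM.spans_exact (by omega) (h1 T hT)).2, mul_div_assoc]

end Pool.Agent.Lib.MP_4960b8_pr.EX
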