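import Pool.Agent.Lib.MP_4960b8_pr.EX.Fun
import Pool.Agent.Lib.MP_4960b8_pr.EX.Cau

/-! The explicit solution of the limiting boundary value problem. -/

namespace Pool.Agent.Lib.MP_4960b8_pr.EX

open Real QK RN Filter Topology Asymptotics

/-- the first coefficient -/
noncomputable def gam : ℝ := Gamma (3 / 4) / √π

/-- the solution in the variable `w` -/
noncomputable def Ph (w : ℂ) : ℂ := (2 / √π : ℝ) * (FF (w ^ 3) * Complex.exp (3 / 4 * w ^ 4))

lemma Ph_diff : Differentiable ℂ Ph := by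
  have := FF_diff
  unfold Ph
  fun_prop

lemma Ph_o : (fun w => Ph w - 1 + gam * w ^ 3) =o[𝓝 0] fun w => w ^ 3 := by
  have p0 : (√π : ℝ) ≠ 0 := (sqrt_pos.2 pi_pos).ne'
  have p1 : ((√π : ℝ) : ℂ) ≠ 0 := Complex.ofReal_ne_zero.2 p0
  have t3 : Tendsto (fun w : ℂ => w ^ 3) (𝓝 0) (𝓝 0) :=
    (continuous_pow 3).tendsto' 0 0 (by norm_num)
  have t4 : Tendsto (fun w : ℂ => 3 / 4 * w ^ 4) (𝓝 0) (𝓝 0) :=
    Continuous.tendsto' (by fun_prop) 0 0 (by norm_num)
  have a1 := ((hasDerivAt_iff_isLittleO.1 FF_deriv0).comp_tendsto t3).const_mul_left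
    ((2 / √π : ℝ) : ℂ)
  have a2 : (fun w : ℂ => Complex.exp (3 / 4 * w ^ 4)) =O[𝓝 0] fun _ => (1 : ℂ) :=
    (Continuous.tendsto (by fun_prop) 0).isBigO_one ℂ
  have a3 : (fun w : ℂ => 1 - gam * w ^ 3) =O[𝓝 0] fun _ => (1 : ℂ) :=
    (Continuous.tendsto (by fun_prop) 0).isBigO_one ℂ
  have a4 := ((Complex.hasDerivAt_exp 0).isBigO_sub.comp_tendsto t4)
  have a5 : (fun w : ℂ => 3 / 4 * w ^ 4) =o[𝓝 0] fun w => w ^ 3 :=
    (isLittleO_pow_pow (by norm_num)).const_mul_left _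
  have a6 := a4.trans_isLittleO (a5.congr_left fun w => (sub_zero _).symm)
  refine (((a1.mul_isBigO a2).congr_right fun w => ?_).add
    ((a3.mul_isLittleO a6).congr_right fun w => one_mul _)).congr_left fun w => ?_
  · simp
  · simp only [Function.comp, FF_zero, Ph, gam, Complex.exp_zero, sub_zero, smul_eq_mul]
    push_cast
    field_simp
    ring

lemma Ph_small {ε : ℝ} (hε : 0 < ε) : ∃ δ : ℝ, 0 < δ ∧ ∀ w : ℂ, ‖w‖ < δ →
    ‖Ph w - 1 + gam * w ^ 3‖ ≤ ε * ‖w‖ ^ 3 := by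
  obtain ⟨δ, h0, h⟩ := Metric.eventually_nhds_iff.1 (Ph_o.def hε)
  exact ⟨δ, h0, fun w hw => by simpa using h (y := w) (by simpa using hw)⟩

lemma Ph_le : ∃ K : ℝ, 0 < K ∧ ∀ w : ℂ, |w.im| ≤ w.re → ‖Ph w - 1‖ ≤ K * ‖w‖ ^ 2 := by
  obtain ⟨δ', d0, h⟩ := Ph_small one_pos
  obtain ⟨δ, e0, e1, e2⟩ : ∃ δ : ℝ, 0 < δ ∧ δ ≤ 1 ∧ δ ≤ δ' :=
    ⟨min 1 δ', lt_min one_pos d0, min_le_left _ _, min_le_right _ _⟩
  obtain ⟨C, hC⟩ : ∃ C : ℝ, C = |2 / √π| * 30 := ⟨_, rfl⟩
  have C0 : 0 ≤ C := by rw [hC]; positivity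
  have g0 := abs_nonneg gam
  have q0 : 0 ≤ (1 + C) / δ ^ 2 := by positivity
  refine ⟨1 + |gam| + ((1 + C) / δ ^ 2 + C), by positivity, fun w hw => ?_⟩
  have n0 := norm_nonneg w
  have n2 := sq_nonneg ‖w‖
  rcases lt_or_ge ‖w‖ δ with a | a
  · have a1 := h w (a.trans_le e2)
    have a2 := norm_sub_le (Ph w - 1 + gam * w ^ 3) (gam * w ^ 3)
    rw [add_sub_cancel_right, norm_mul, norm_pow, Complex.norm_real, Real.norm_eq_abs] at a2
    have a3 : ‖w‖ ^ 3 ≤ ‖w‖ ^ 2 := pow_le_pow_of_le_one n0 (by linarith) (by norm_num)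
    nlinarith [mul_le_mul_of_nonneg_left a3 g0, mul_nonneg q0 n2, mul_nonneg C0 n2]
  · have a1 := mul_le_mul_of_nonneg_left (FF_le hw) (abs_nonneg (2 / √π))
    have a2 := norm_sub_le (Ph w) 1
    have a3 : w.re ^ 2 ≤ ‖w‖ ^ 2 := by
      rw [← sq_abs]; exact pow_le_pow_left₀ (abs_nonneg _) (Complex.abs_re_le_norm w) 2
    have a4 : 1 + C ≤ (1 + C) / δ ^ 2 * ‖w‖ ^ 2 := by
      rw [div_mul_eq_mul_div, le_div_iff₀ (by positivity)]
      exact mul_le_mul_of_nonneg_left (pow_le_pow_left₀ e0.le a 2) (by positivity)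
    rw [← mul_assoc, ← hC] at a1
    rw [norm_one, Ph, norm_mul, Complex.norm_real, Real.norm_eq_abs, ← Ph] at a2
    nlinarith [mul_le_mul_of_nonneg_left a3 C0, mul_nonneg g0 n2]

/-- the logarithm of the scale -/
noncomputable def lk : ℝ := -log 3 / 8

/-- the variable `w` -/
noncomputable def ww (z : ℂ) : ℂ := Complex.exp (lk + Complex.I * z / 3)

lemma lk_neg : lk ≤ 0 := by
  have := log_nonneg (show (1 : ℝ) ≤ 3 by norm_num)
  unfold lk
  linarith

lemma ww_eq (x τ : ℝ) : ww (pt x τ) = exp (lk - τ / 3) * Complex.exp ((x / 3 : ℝ) * Complex.I) := by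
  rw [ww, Complex.ofReal_exp, ← Complex.exp_add, pt]
  congr 1
  push_cast
  linear_combination (τ : ℂ) / 3 * Complex.I_sq

lemma ww_pow (n : ℕ) (x τ : ℝ) : ww (pt x τ) ^ n =
    (exp (lk - τ / 3) ^ n : ℝ) * (cos (n * (x / 3)) + sin (n * (x / 3)) * Complex.I) := by
  rw [ww_eq, mul_pow, ← Complex.exp_nat_mul, ← mul_assoc, ← Complex.ofReal_natCast,
    ← Complex.ofReal_mul, Complex.exp_mul_I]
  push_cast
  ring

lemma ww_norm (x τ : ℝ) : ‖ww (pt x τ)‖ ≤ exp (-τ / 3) := by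
  rw [ww_eq, norm_mul, Complex.norm_exp_ofReal_mul_I, mul_one, Complex.norm_real, Real.norm_eq_abs,
    abs_of_pos (exp_pos _)]
  exact exp_le_exp.2 (by linarith [lk_neg])

lemma ww_sec {x : ℝ} (hx : |x| ≤ 3 * π / 4) (τ : ℝ) : |(ww (pt x τ)).im| ≤ (ww (pt x τ)).re := by
  obtain ⟨h1, h2⟩ := abs_le.1 hx
  rw [ww_eq, Complex.im_ofReal_mul, Complex.re_ofReal_mul, Complex.exp_ofReal_mul_I_im,
    Complex.exp_ofReal_mul_I_re, abs_mul, abs_of_pos (exp_pos _)]
  refine mul_le_mul_of_nonneg_left ?_ (exp_pos _).le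
  have a1 := sin_nonneg_of_nonneg_of_le_pi (x := π / 4 - x / 3) (by linarith) (by linarith [pi_pos])
  have a2 := sin_nonneg_of_nonneg_of_le_pi (x := π / 4 + x / 3) (by linarith) (by linarith [pi_pos])
  rw [sin_sub, sin_pi_div_four, cos_pi_div_four] at a1
  rw [sin_add, sin_pi_div_four, cos_pi_div_four] at a2
  have s2 : (0 : ℝ) < √2 / 2 := by positivity
  exact abs_le.2 ⟨by nlinarith, by nlinarith⟩

lemma sinfac {H : ℂ → ℂ} (hH : Differentiable ℂ H) {K c : ℝ} (hK : 0 < K) (hc : |c| ≤ 1)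
    (hb : ∀ x τ : ℝ, |x| ≤ 3 * π / 4 → ‖H (pt x τ)‖ ≤ K * exp (c * τ))
    (h0 : ∀ τ, (H (pt 0 τ)).im = 0) {x : ℝ} (τ : ℝ) (x0 : 0 ≤ x) (x1 : x ≤ 3 * π / 4) :
    |(H (pt x τ)).im| ≤ 12 * K * (exp (c * τ) * sin (2 * x / 3)) := by
  have p3 := pi_gt_three
  have p4 := pi_le_four
  have E0 : 0 < K * exp (c * τ) := by positivity
  have s1 : x ≤ 3 * sin (2 * x / 3) := by
    have a := mul_le_sin (x := 2 * x / 3) (by linarith) (by linarith)
    rw [div_mul_eq_mul_div, div_le_iff₀ pi_pos] at a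
    have b : 0 ≤ sin (2 * x / 3) := (cauchy_trig x0 x1).1
    nlinarith
  have key : |(H (pt x τ)).im| ≤ 4 * (K * exp (c * τ)) * x := by
    rcases lt_or_ge x 1 with a | a
    · have d : dist (pt x τ) (pt 0 τ) = x := by
        rw [dist_eq_norm, show pt x τ - pt 0 τ = x by simp [pt], Complex.norm_real,
          Real.norm_eq_abs, abs_of_nonneg x0]
      have b := Complex.dist_le_div_mul_dist_of_mapsTo_ball (f := H) (c := pt 0 τ) (R₁ := 1)
        (R₂ := 4 * (K * exp (c * τ))) (z := pt x τ) hH.differentiableOn (fun z hz => ?_)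
        (by rw [Metric.mem_ball, d]; exact a)
      · rw [d, div_one, dist_eq_norm] at b
        have := (Complex.abs_im_le_norm _).trans b
        rwa [Complex.sub_im, h0, sub_zero] at this
      · rw [mem_ball_iff_norm] at hz
        have z1 := (Complex.abs_re_le_norm _).trans hz.le
        have z2 := (Complex.abs_im_le_norm _).trans hz.le
        simp only [pt, Complex.sub_re, Complex.sub_im, Complex.add_re, Complex.add_im,
          Complex.ofReal_re, Complex.ofReal_im, Complex.mul_re, Complex.mul_im, Complex.I_re,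
          Complex.I_im, mul_zero, mul_one, sub_zero, add_zero, zero_add] at z1 z2
        have b1 := hb z.re z.im (by linarith)
        rw [show pt z.re z.im = z from Complex.re_add_im z] at b1
        have b2 := hb 0 τ (by rw [abs_zero]; positivity)
        have b3 : c * z.im ≤ 1 + c * τ := by
          have := mul_le_one₀ hc (abs_nonneg _) z2
          rw [← abs_mul] at this
          linarith [(abs_le.1 this).2]
        have b4 := exp_le_exp.2 b3
        rw [exp_add] at b4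
        have b5 := mul_le_mul_of_nonneg_right exp_one_lt_three.le (exp_pos (c * τ)).le
        rw [mem_closedBall_iff_norm]
        refine (norm_sub_le _ _).trans ?_
        nlinarith [mul_le_mul_of_nonneg_left (b4.trans b5) hK.le]
    · have := (Complex.abs_im_le_norm _).trans (hb x τ (by rwa [abs_of_nonneg x0]))
      nlinarith
  nlinarith

/-- the limiting multiplier -/
noncomputable def LamI (τ : ℝ) : ℂ := Complex.exp (-((3 * √3 + 3 * Complex.I) / 2 * tt τ))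

lemma lamI_ok {L : ℝ} (hL : 0 ≤ L) : LamOK LamI L := by
  have t : ∀ τ, -L ≤ τ → Tendsto (fun T : ℕ => Lam T (tt τ / (2 * T))) atTop (𝓝 (LamI τ)) :=
    fun τ hτ => Metric.tendsto_atTop.2 fun ε hε => by
      have t0 := lam_tt_pos τ
      obtain ⟨T₀, h⟩ := lam_close L (δ := ε / 2 / tt τ) (by positivity)
      refine ⟨T₀, fun T hT => ?_⟩
      rw [dist_eq_norm]
      refine (h T hT τ hτ).trans_lt ?_
      rw [div_mul_cancel₀ _ t0.ne']
      linarith
  have ok : ∀ᶠ T : ℕ in atTop, LamOK (fun τ => Lam T (tt τ / (2 * T))) L := by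
    filter_upwards [eventually_ge_atTop 1000, eventually_ge_atTop ⌈1000 * tt (-L)⌉₊] with T h1 h2
    exact lam_ok h1 hL (by linarith [Nat.ceil_le.1 h2])
  have re := fun τ hτ => (Complex.continuous_re.tendsto _).comp (t τ hτ)
  have im := fun τ hτ => (Complex.continuous_im.tendsto _).comp (t τ hτ)
  exact ⟨fun τ hτ => le_of_tendsto (t τ hτ).norm (ok.mono fun T h => h.n1 τ hτ),
    fun τ hτ => le_of_tendsto (((re τ hτ).div_const 2).add ((im τ hτ).const_mul (√3 / 2))).abs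
      (ok.mono fun T h => h.rot τ hτ),
    fun τ hτ => le_of_tendsto (t τ hτ).norm (ok.mono fun T h => h.dec τ hτ),
    fun τ hτ => ⟨ge_of_tendsto (re τ (by linarith)) (ok.mono fun T h => (h.pos τ hτ).1),
      le_of_tendsto (im τ (by linarith)).abs (ok.mono fun T h => (h.pos τ hτ).2)⟩⟩

lemma Ph_left (τ : ℝ) : (Ph (ww (pt 0 τ))).im = 0 := by
  have e : ww (pt 0 τ) = exp (lk - τ / 3) := by rw [ww_eq]; simp
  rw [e, Ph, Complex.im_ofReal_mul, ← Complex.ofReal_pow, show (3 / 4 * ((exp (lk - τ / 3) : ℝ) : ℂ) ^ 4)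
    = ((3 / 4 * exp (lk - τ / 3) ^ 4 : ℝ) : ℂ) by push_cast; ring, ← Complex.ofReal_exp,
    Complex.im_mul_ofReal, FF_real, zero_mul, mul_zero]

lemma Ph_bd (τ : ℝ) : (Ph (ww (pt (3 * π / 4) τ))).im = (LamI τ * Ph (ww (pt (π / 4) τ))).im := by
  obtain ⟨r, hr⟩ : ∃ r, r = exp (lk - τ / 3) := ⟨_, rfl⟩
  have s3 : ((√3 : ℝ) : ℂ) ^ 2 = 3 := by rw [← Complex.ofReal_pow, sq_sqrt (by norm_num)]; norm_num
  have e0 : √3 * r ^ 4 = 4 * tt τ := by
    rw [hr, ← exp_nat_mul, sqrt_eq_rpow, rpow_def_of_pos (by norm_num), ← exp_add, tt, lk,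
      mul_div_cancel₀ _ (by norm_num)]
    congr 1
    push_cast
    ring
  have e0' : ((√3 : ℝ) : ℂ) * r ^ 4 = 4 * tt τ := by exact_mod_cast e0
  have a3 := ww_pow 3 (3 * π / 4) τ
  have a4 := ww_pow 4 (3 * π / 4) τ
  have b3 := ww_pow 3 (π / 4) τ
  have b4 := ww_pow 4 (π / 4) τ
  rw [← hr] at a3 a4 b3 b4
  rw [show ((3 : ℕ) : ℝ) * (3 * π / 4 / 3) = π - π / 4 by push_cast; ring, cos_pi_sub, sin_pi_sub,
    cos_pi_div_four, sin_pi_div_four] at a3
  rw [show ((4 : ℕ) : ℝ) * (3 * π / 4 / 3) = π by push_cast; ring, cos_pi, sin_pi] at a4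
  rw [show ((3 : ℕ) : ℝ) * (π / 4 / 3) = π / 4 by push_cast; ring, cos_pi_div_four,
    sin_pi_div_four] at b3
  rw [show ((4 : ℕ) : ℝ) * (π / 4 / 3) = π / 3 by push_cast; ring, cos_pi_div_three,
    sin_pi_div_three] at b4
  have c1 : (1 + Complex.I) * ww (pt (3 * π / 4) τ) ^ 3 = (-(√2 * r ^ 3) : ℝ) := by
    rw [a3]; push_cast; linear_combination (r : ℂ) ^ 3 * (√2 : ℝ) / 2 * Complex.I_sq
  have c2 : (1 - Complex.I) * ww (pt (π / 4) τ) ^ 3 = (√2 * r ^ 3 : ℝ) := by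
    rw [b3]; push_cast; linear_combination -(r : ℂ) ^ 3 * (√2 : ℝ) / 2 * Complex.I_sq
  have c3 : (1 - Complex.I) * ww (pt (3 * π / 4) τ) ^ 3 =
      (1 + Complex.I) * ww (pt (π / 4) τ) ^ 3 := by
    rw [a3, b3]; push_cast; linear_combination -(r : ℂ) ^ 3 * (√2 : ℝ) * Complex.I_sq
  have c4 : Complex.exp (3 / 4 * ww (pt (3 * π / 4) τ) ^ 4) = exp (-(3 / 4 * r ^ 4)) := by
    rw [a4, Complex.ofReal_exp]; congr 1; push_cast; ring
  have c5 : LamI τ * Complex.exp (3 / 4 * ww (pt (π / 4) τ) ^ 4) = exp (-(3 / 4 * r ^ 4)) := by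
    rw [b4, Complex.ofReal_exp, LamI, ← Complex.exp_add]
    congr 1
    push_cast
    linear_combination (3 * (√3 : ℝ) + 3 * Complex.I) / 8 * e0' - 3 / 8 * (r : ℂ) ^ 4 * s3
  rw [Ph, Ph, mul_left_comm (LamI τ), mul_left_comm (LamI τ), c4, c5, FF, FF, c1, c2, c3,
    Complex.im_ofReal_mul, Complex.im_ofReal_mul, Complex.im_mul_ofReal, Complex.im_mul_ofReal,
    Complex.add_im, Complex.add_im, Jn_real, Jn_real, zero_add, add_zero]

theorem sol : ∃ a : ℝ, 0 < a ∧ a ≤ 1 ∧ ∀ L : ℝ,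
    ShA a LamI L (a * (gam * exp (3 * lk))) fun z => a * Ph (ww z) := by
  obtain ⟨K, K0, hK⟩ := Ph_le
  obtain ⟨a, ha⟩ : ∃ a : ℝ, a = 1 / (1 + 16 * K) := ⟨_, rfl⟩
  have a0 : 0 < a := by rw [ha]; positivity
  have a1 : a * (1 + 16 * K) = 1 := by rw [ha]; field_simp
  have a2 : 0 < a * K := by positivity
  have na : ‖(a : ℂ)‖ = a := by rw [Complex.norm_real, Real.norm_eq_abs, abs_of_pos a0]
  have dw : Differentiable ℂ fun z => Ph (ww z) := Ph_diff.comp (by unfold ww; fun_prop)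
  have bb : ∀ x τ : ℝ, |x| ≤ 3 * π / 4 → ‖Ph (ww (pt x τ)) - 1‖ ≤ K * exp (-2 / 3 * τ) :=
    fun x τ hx => (hK _ (ww_sec hx τ)).trans (mul_le_mul_of_nonneg_left (by
      rw [show -2 / 3 * τ = -2 * τ / 3 by ring, cauchy_w2]
      exact pow_le_pow_left₀ (norm_nonneg _) (ww_norm x τ) 2) K0.le)
  refine ⟨a, a0, by linarith, fun L => ⟨by rw [abs_of_pos a0]; linarith,
    (dw.const_mul _).differentiableOn,
    fun τ => by rw [Complex.im_ofReal_mul, Ph_left, mul_zero], fun τ _ => ?_, fun ε hε => ?_,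
    fun x τ x0 x1 _ => ?_, fun τ _ => ?_, fun x τ x0 x1 _ => ?_⟩⟩
  · rw [mul_left_comm, Complex.im_ofReal_mul, Complex.im_ofReal_mul, Ph_bd]
  · obtain ⟨δ, d0, h⟩ := Ph_small hε
    refine ⟨-3 * log δ + 1, fun x τ _ hτ => ?_⟩
    have b1 : exp (-τ / 3) < δ := by rw [← exp_log d0]; exact exp_lt_exp.2 (by linarith)
    have b2 := h _ ((ww_norm x τ).trans_lt b1)
    have b3 := pow_le_pow_left₀ (norm_nonneg _) (ww_norm x τ) 3
    have b4 : ww (pt x τ) ^ 3 = exp (3 * lk) * Complex.exp (Complex.I * pt x τ) := by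
      rw [ww, ← Complex.exp_nat_mul, Complex.ofReal_exp, ← Complex.exp_add]
      congr 1
      push_cast
      ring
    rw [← cauchy_w3] at b3
    rw [show (a : ℂ) * Ph (ww (pt x τ)) - a + (a * (gam * exp (3 * lk)) : ℝ) *
      Complex.exp (Complex.I * pt x τ) = a * (Ph (ww (pt x τ)) - 1 + gam * ww (pt x τ) ^ 3) by
        rw [b4]; push_cast; ring, norm_mul, na]
    exact (mul_le_of_le_one_left (norm_nonneg _) (by linarith)).trans
      (b2.trans (mul_le_mul_of_nonneg_left b3 hε.le))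
  · have b := sinfac (H := fun z => Ph (ww z) - 1) (dw.sub_const 1) K0 (c := -2 / 3)
      (by rw [abs_le]; norm_num) bb (fun τ => by rw [Complex.sub_im, Ph_left]; simp) τ x0 x1
    rw [Complex.sub_im, Complex.one_im, sub_zero, show -2 / 3 * τ = -2 * τ / 3 by ring] at b
    have s0 := mul_nonneg (exp_pos (-2 * τ / 3)).le (cauchy_trig x0 x1).1
    rw [Complex.im_ofReal_mul, abs_mul, abs_of_pos a0]
    nlinarith [mul_le_mul_of_nonneg_left b a0.le]
  · have b := bb (π / 4) τ (by rw [abs_of_pos (by positivity)]; linarith [pi_pos])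
    rw [show -2 / 3 * τ = -2 * τ / 3 by ring, norm_sub_rev] at b
    rw [← mul_one_sub, norm_mul, na]
    nlinarith [mul_le_mul_of_nonneg_left b a0.le, exp_pos (-2 * τ / 3)]
  · have b := sinfac (H := fun z => (1 - Ph (ww z)) * Complex.exp (-(4 * Complex.I * z / 3)))
      ((dw.const_sub 1).mul (by fun_prop)) K0 (c := 2 / 3) (by rw [abs_le]; norm_num)
      (fun x τ hx => by
        have e1 : (-(4 * Complex.I * pt x τ / 3)).re = 4 * τ / 3 := by simp [pt]; ring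
        rw [norm_mul, Complex.norm_exp, e1, norm_sub_rev,
          show 2 / 3 * τ = -2 / 3 * τ + 4 * τ / 3 by ring, exp_add, ← mul_assoc]
        exact mul_le_mul_of_nonneg_right (bb x τ hx) (exp_pos _).le)
      (fun τ => by rw [cauchy_e4, Complex.sub_im, Ph_left]; simp) τ x0 x1
    rw [show 2 / 3 * τ = 2 * τ / 3 by ring] at b
    have s0 := mul_nonneg (exp_pos (2 * τ / 3)).le (cauchy_trig x0 x1).1
    rw [← mul_one_sub, mul_assoc, Complex.im_ofReal_mul, abs_mul, abs_of_pos a0]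
    nlinarith [mul_le_mul_of_nonneg_left b a0.le]

end Pool.Agent.Lib.MP_4960b8_pr.EX
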